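import Mathlib

/-!
# Hensel's lemma over a complete ultrametric field
-/

set_option autoImplicit false

open Polynomial

namespace Pool.Agent.H23.N6

section ev

variable {F : Type*} [NormedField F] [IsUltrametricDist F]

theorem norm_sum_le_of {ι : Type*} (s : Finset ι) (f : ι → F) {r : ℝ} (hr : 0 ≤ r)
    (h : ∀ i ∈ s, ‖f i‖ ≤ r) : ‖∑ i ∈ s, f i‖ ≤ r := by
  classical
  induction s using Finset.induction_on with
  | empty => simpa using hr
  | insert a s ha ih =>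
    rw [Finset.sum_insert ha]
    refine (IsUltrametricDist.norm_add_le_max _ _).trans (max_le ?_ ?_)
    · exact h a (Finset.mem_insert_self _ _)
    · exact ih fun i hi => h i (Finset.mem_insert_of_mem hi)

theorem eval_int {P : F[X]} (hP : ∀ i, ‖P.coeff i‖ ≤ 1) {x : F} (hx : ‖x‖ ≤ 1) :
    ‖eval x P‖ ≤ 1 := by
  rw [Polynomial.eval_eq_sum_range]
  apply norm_sum_le_of _ _ zero_le_one
  intro i _
  rw [norm_mul, norm_pow]
  exact mul_le_one₀ (hP i) (by positivity) (pow_le_one₀ (norm_nonneg _) hx)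

theorem norm_natCast_le (n : ℕ) : ‖(n : F)‖ ≤ 1 := by
  induction n with
  | zero => simp
  | succ n ih =>
    rw [Nat.cast_succ]
    refine (IsUltrametricDist.norm_add_le_max _ _).trans (max_le ih ?_)
    rw [norm_one]

theorem taylor_int {P : F[X]} (hP : ∀ i, ‖P.coeff i‖ ≤ 1) {x : F} (hx : ‖x‖ ≤ 1) (i : ℕ) :
    ‖(taylor x P).coeff i‖ ≤ 1 := by
  rw [Polynomial.taylor_coeff]
  apply eval_int _ hx
  intro j
  rw [Polynomial.hasseDeriv_coeff, norm_mul]
  exact mul_le_one₀ (norm_natCast_le _) (norm_nonneg _) (hP _)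

theorem norm_pow_sub_pow_le {r : ℝ} (hr1 : r ≤ 1) {h k : F} (hh : ‖h‖ ≤ r) (hk : ‖k‖ ≤ r)
    (i : ℕ) : ‖h ^ (i + 2) - k ^ (i + 2)‖ ≤ r * ‖h - k‖ := by
  have hr : 0 ≤ r := (norm_nonneg _).trans hh
  have h1 : h ^ (i + 2) - k ^ (i + 2) =
      (∑ j ∈ Finset.range (i + 2), h ^ j * k ^ (i + 2 - 1 - j)) * (h - k) :=
    (Commute.all h k).geom_sum₂_mul _ |>.symm
  rw [h1, norm_mul]
  apply mul_le_mul_of_nonneg_right _ (norm_nonneg _)
  apply norm_sum_le_of _ _ hr
  intro j hj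
  rw [Finset.mem_range] at hj
  rw [norm_mul, norm_pow, norm_pow]
  calc ‖h‖ ^ j * ‖k‖ ^ (i + 2 - 1 - j) ≤ r ^ j * r ^ (i + 2 - 1 - j) := by
        apply mul_le_mul (pow_le_pow_left₀ (norm_nonneg _) hh _)
          (pow_le_pow_left₀ (norm_nonneg _) hk _) (by positivity) (by positivity)
    _ = r ^ (i + 1) := by
        rw [← pow_add]
        congr 1
        omega
    _ = r ^ i * r := pow_succ _ _
    _ ≤ 1 * r := mul_le_mul_of_nonneg_right (pow_le_one₀ hr hr1) hr
    _ = r := one_mul _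

theorem eval_sub_bound {Q : F[X]} (hQ : ∀ i, ‖Q.coeff i‖ ≤ 1) {r : ℝ} (hr1 : r ≤ 1) {h k : F}
    (hh : ‖h‖ ≤ r) (hk : ‖k‖ ≤ r) :
    ‖eval h Q - eval k Q - Q.coeff 1 * (h - k)‖ ≤ r * ‖h - k‖ := by
  have hr : 0 ≤ r := (norm_nonneg _).trans hh
  have hlt : Q.natDegree < Q.natDegree + 2 := by omega
  rw [Polynomial.eval_eq_sum_range' hlt, Polynomial.eval_eq_sum_range' hlt,
    Finset.sum_range_succ', Finset.sum_range_succ', Finset.sum_range_succ',
    Finset.sum_range_succ']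
  have e1 : (∑ i ∈ Finset.range Q.natDegree, Q.coeff (i + 1 + 1) * h ^ (i + 1 + 1) +
      Q.coeff (0 + 1) * h ^ (0 + 1) + Q.coeff 0 * h ^ 0) -
      (∑ i ∈ Finset.range Q.natDegree, Q.coeff (i + 1 + 1) * k ^ (i + 1 + 1) +
      Q.coeff (0 + 1) * k ^ (0 + 1) + Q.coeff 0 * k ^ 0) - Q.coeff 1 * (h - k) =
      ∑ i ∈ Finset.range Q.natDegree, Q.coeff (i + 2) * (h ^ (i + 2) - k ^ (i + 2)) := by
    simp only [mul_sub, Finset.sum_sub_distrib]
    ring
  rw [e1]
  apply norm_sum_le_of _ _ (by positivity)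
  intro i _
  rw [norm_mul]
  calc ‖Q.coeff (i + 2)‖ * ‖h ^ (i + 2) - k ^ (i + 2)‖ ≤ 1 * (r * ‖h - k‖) :=
        mul_le_mul (hQ _) (norm_pow_sub_pow_le hr1 hh hk i) (norm_nonneg _) zero_le_one
    _ = r * ‖h - k‖ := one_mul _

end ev

/-- Hensel's lemma -/
theorem hensel_root {F : Type*} [NormedField F] [IsUltrametricDist F] [CompleteSpace F]
    {P : F[X]} {t : F} (hP : ∀ i, ‖P.coeff i‖ ≤ 1) (ht : ‖t‖ ≤ 1) (h0 : ‖eval t P‖ < 1)
    (h1 : ‖eval t (derivative P)‖ = 1) : ∃ e : F, eval e P = 0 ∧ ‖e - t‖ ≤ ‖eval t P‖ := by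
  set Q := taylor t P with hQ
  have hQi : ∀ i, ‖Q.coeff i‖ ≤ 1 := taylor_int hP ht
  set c := Q.coeff 1 with hc
  have hc1 : ‖c‖ = 1 := by
    rw [hc, hQ, Polynomial.taylor_coeff_one]
    exact h1
  have hc0 : c ≠ 0 := by
    intro h
    rw [h, norm_zero] at hc1
    exact zero_ne_one hc1
  have hQ0 : eval 0 Q = eval t P := by
    rw [hQ, Polynomial.taylor_eval, zero_add]
  set r := ‖eval t P‖ with hr
  have hr0 : 0 ≤ r := norm_nonneg _
  set s : ℕ → F := fun n => Nat.rec 0 (fun _ h => h - eval h Q / c) n with hs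
  have hs0 : s 0 = 0 := rfl
  have hss : ∀ n, s (n + 1) = s n - eval (s n) Q / c := fun n => rfl
  have hd : ∀ n, ‖s (n + 1) - s n‖ = ‖eval (s n) Q‖ := by
    intro n
    rw [hss, sub_sub_cancel_left, norm_neg, norm_div, hc1, div_one]
  have key : ∀ n, ‖s n‖ ≤ r ∧ ‖eval (s n) Q‖ ≤ r ^ (n + 1) := by
    intro n
    induction n with
    | zero =>
      rw [hs0, norm_zero, hQ0, zero_add, pow_one]
      exact ⟨hr0, le_refl _⟩
    | succ n ih =>
      have hle : r ^ (n + 1) ≤ r := by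
        calc r ^ (n + 1) = r ^ n * r := pow_succ _ _
          _ ≤ 1 * r := mul_le_mul_of_nonneg_right (pow_le_one₀ hr0 h0.le) hr0
          _ = r := one_mul _
      have h3 : ‖s (n + 1)‖ ≤ r := by
        have h4 : s (n + 1) = s n + (s (n + 1) - s n) := by ring
        rw [h4]
        refine (IsUltrametricDist.norm_add_le_max _ _).trans (max_le ih.1 ?_)
        rw [hd]
        exact ih.2.trans hle
      refine ⟨h3, ?_⟩
      have h5 := eval_sub_bound hQi h0.le h3 ih.1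
      have h6 : eval (s (n + 1)) Q - eval (s n) Q - Q.coeff 1 * (s (n + 1) - s n) =
          eval (s (n + 1)) Q := by
        rw [hss n, ← hc]
        field_simp
        ring
      rw [h6, hd] at h5
      calc ‖eval (s (n + 1)) Q‖ ≤ r * ‖eval (s n) Q‖ := h5
        _ ≤ r * r ^ (n + 1) := mul_le_mul_of_nonneg_left ih.2 hr0
        _ = r ^ (n + 1 + 1) := (pow_succ' _ _).symm
  have hcau : CauchySeq s := by
    apply cauchySeq_of_le_geometric r r h0
    intro n
    rw [dist_comm, dist_eq_norm, hd]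
    calc ‖eval (s n) Q‖ ≤ r ^ (n + 1) := (key n).2
      _ = r * r ^ n := pow_succ' _ _
  obtain ⟨h, hh⟩ := cauchySeq_tendsto_of_complete hcau
  have hle : ‖h‖ ≤ r := le_of_tendsto hh.norm (Filter.Eventually.of_forall fun n => (key n).1)
  have hz : eval h Q = 0 := by
    have h1 : Filter.Tendsto (fun n => eval (s n) Q) Filter.atTop (nhds (eval h Q)) :=
      (Q.continuous.tendsto h).comp hh
    have h2 : Filter.Tendsto (fun n => eval (s n) Q) Filter.atTop (nhds 0) := by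
      apply squeeze_zero_norm (fun n => (key n).2)
      have h3 := (tendsto_pow_atTop_nhds_zero_of_lt_one hr0 h0)
      exact h3.comp (Filter.tendsto_add_atTop_nat 1)
    exact tendsto_nhds_unique h1 h2
  refine ⟨h + t, ?_, ?_⟩
  · rw [hQ, Polynomial.taylor_eval] at hz
    exact hz
  · rw [add_sub_cancel_right]
    exact hle

end Pool.Agent.H23.N6
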