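import Pool.Agent.H34.N6.Main2
import Pool.Agent.H34.N6.Asm
import Pool.Agent.H23.QCF.All
import Pool.Agent.H23.QCF.LocalAll
import Pool.Agent.H23.N6E.EBD2

/-!
# A conic bundle with a quartic discriminant: a point of odd degree from local points
-/

set_option autoImplicit false

open Polynomial NumberField IsDedekindDomain Pool.Agent.H32.QC Pool.Agent.H34.N6

namespace Pool.Agent.H23.N6

/-- the point of odd degree on the conic bundle `(a, c Q(z))` -/
def T_F2B : Prop := ∀ (K : Type) [Field K] [NumberField K] (a c : K) (Q : K[X]), a ≠ 0 → c ≠ 0 →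
  Q.Monic → Irreducible Q → Q.natDegree = 4 →
  (∀ v : Pl K, (AtPl v fun F _ ι => ∃ z : F, eval₂ ι z Q ≠ 0 ∧ Sol (ι a) (ι c * eval₂ ι z Q)) ∨
    hs v a c = 1) →
  Sol a c ∨ ∃ (K' : Type) (_ : Field K') (_ : NumberField K') (_ : Algebra K K'),
    Odd (Module.finrank K K') ∧ ∃ z : K', aeval z Q ≠ 0 ∧
      Sol (algebraMap K K' a) (algebraMap K K' c * aeval z Q)

section sol

variable {L : Type*} [Field L]

theorem sol_of_sq {a : L} (b : L) (h : IsSquare a) : Sol a b := by
  obtain ⟨r, hr⟩ := h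
  exact ⟨1, 0, r, Or.inl one_ne_zero, by rw [hr]; ring⟩

theorem sol_map {M : Type*} [Field M] (f : L →+* M) {a b : L} (h : Sol a b) :
    Sol (f a) (f b) := by
  obtain ⟨x, y, z, h1, h2⟩ := h
  refine ⟨f x, f y, f z, ?_, ?_⟩
  · rcases h1 with h1 | h1 | h1
    · exact Or.inl ((_root_.map_ne_zero f).2 h1)
    · exact Or.inr (Or.inl ((_root_.map_ne_zero f).2 h1))
    · exact Or.inr (Or.inr ((_root_.map_ne_zero f).2 h1))
  · rw [← map_pow, ← map_pow, ← map_pow, ← map_mul, ← map_mul, ← map_add, h2]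

theorem sol_div_norm {a b u v : L} (hN : u ^ 2 - a * v ^ 2 ≠ 0)
    (h : Sol a (b * (u ^ 2 - a * v ^ 2))) : Sol a b := by
  obtain ⟨x, y, z, h1, h2⟩ := h
  by_cases hy : y = 0
  · refine ⟨x, 0, z, ?_, ?_⟩
    · rcases h1 with h1 | h1 | h1
      · exact Or.inl h1
      · exact absurd hy h1
      · exact Or.inr (Or.inr h1)
    · rw [hy] at h2
      linear_combination h2
  · refine ⟨z * v + x * u, (u ^ 2 - a * v ^ 2) * y, z * u + a * x * v,
      Or.inr (Or.inl (mul_ne_zero hN hy)), ?_⟩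
    linear_combination (u ^ 2 - a * v ^ 2) * h2

end sol

section pade

variable {K : Type*} [Field K]

theorem exists_pade {Q s : K[X]} (hQ : Q.Monic) (h4 : Q.natDegree = 4) :
    ∃ A B : K[X], A.natDegree ≤ 2 ∧ B.natDegree ≤ 1 ∧ (A ≠ 0 ∨ B ≠ 0) ∧ Q ∣ A - s * B := by
  set fA : (Fin 3 → K) →ₗ[K] K[X] :=
    (Polynomial.degreeLT K 3).subtype ∘ₗ (Polynomial.degreeLTEquiv K 3).symm.toLinearMap with hfA
  set fB : (Fin 2 → K) →ₗ[K] K[X] :=
    (Polynomial.degreeLT K 2).subtype ∘ₗ (Polynomial.degreeLTEquiv K 2).symm.toLinearMap with hfB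
  set Φ : ((Fin 3 → K) × (Fin 2 → K)) →ₗ[K] (Fin 4 → K) :=
    LinearMap.pi fun i : Fin 4 => (Polynomial.lcoeff K (i : ℕ)) ∘ₗ (Polynomial.modByMonicHom Q) ∘ₗ
      (fA ∘ₗ LinearMap.fst K _ _ - (LinearMap.mulLeft K s) ∘ₗ fB ∘ₗ LinearMap.snd K _ _) with hΦ
  have hker : LinearMap.ker Φ ≠ ⊥ := by
    apply LinearMap.ker_ne_bot_of_finrank_lt
    simp
  obtain ⟨x, hx, hx0⟩ := Submodule.exists_mem_ne_zero_of_ne_bot hker
  have hinjA : Function.Injective fA := by
    intro y y' h
    exact (Polynomial.degreeLTEquiv K 3).symm.injective (Subtype.coe_injective h)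
  have hinjB : Function.Injective fB := by
    intro y y' h
    exact (Polynomial.degreeLTEquiv K 2).symm.injective (Subtype.coe_injective h)
  refine ⟨fA x.1, fB x.2, ?_, ?_, ?_, ?_⟩
  · have h1 := ((Polynomial.degreeLTEquiv K 3).symm x.1).2
    rw [Polynomial.mem_degreeLT] at h1
    have h2 : (fA x.1).degree < 3 := h1
    by_cases h0 : fA x.1 = 0
    · rw [h0, natDegree_zero]
      omega
    · rw [Polynomial.degree_eq_natDegree h0] at h2
      have h3 : (fA x.1).natDegree < 3 := by exact_mod_cast h2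
      omega
  · have h1 := ((Polynomial.degreeLTEquiv K 2).symm x.2).2
    rw [Polynomial.mem_degreeLT] at h1
    have h2 : (fB x.2).degree < 2 := h1
    by_cases h0 : fB x.2 = 0
    · rw [h0, natDegree_zero]
      omega
    · rw [Polynomial.degree_eq_natDegree h0] at h2
      have h3 : (fB x.2).natDegree < 2 := by exact_mod_cast h2
      omega
  · by_contra hcon
    push Not at hcon
    apply hx0
    apply Prod.ext
    · apply hinjA
      rw [hcon.1]
      exact (map_zero fA).symm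
    · apply hinjB
      rw [hcon.2]
      exact (map_zero fB).symm
  · rw [← Polynomial.modByMonic_eq_zero_iff_dvd hQ]
    have hdeg := Polynomial.natDegree_modByMonic_lt (fA x.1 - s * fB x.2) hQ (by
      intro h
      rw [h, natDegree_one] at h4
      omega)
    rw [h4] at hdeg
    apply Polynomial.ext
    intro i
    rw [coeff_zero]
    by_cases hi : i < 4
    · have h5 := congrFun (LinearMap.mem_ker.1 hx) ⟨i, hi⟩
      exact h5
    · exact Polynomial.coeff_eq_zero_of_natDegree_lt (by omega)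

/-- a quartic modulo which `a` is a square is a norm form -/
theorem norm_form {Q : K[X]} {a : K} (hQ : Q.Monic) (h4 : Q.natDegree = 4)
    (hsq : SqMod Q (C a)) (ha : ¬ IsSquare a) : ∃ A B : K[X], Q = A ^ 2 - C a * B ^ 2 := by
  obtain ⟨s, hs⟩ := hsq
  obtain ⟨A, B, hA, hB, hne, hdvd⟩ := exists_pade (s := s) hQ h4
  have h1 : Q ∣ A ^ 2 - C a * B ^ 2 := by
    have h2 : A ^ 2 - C a * B ^ 2 = (A - s * B) * (A + s * B) - (C a - s ^ 2) * B ^ 2 := by
      ring
    rw [h2]
    exact dvd_sub (Dvd.dvd.mul_right hdvd _) (Dvd.dvd.mul_right hs _)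
  obtain ⟨R, hR⟩ := h1
  have hne2 : A ^ 2 - C a * B ^ 2 ≠ 0 := by
    intro h
    have h3 : A ^ 2 = C a * B ^ 2 := sub_eq_zero.1 h
    by_cases hB0 : B = 0
    · rw [hB0] at h3
      have h5 : A ^ 2 = 0 := by rw [h3]; ring
      have h6 : A = 0 := pow_eq_zero_iff two_ne_zero |>.1 h5
      rcases hne with h | h
      · exact h h6
      · exact h hB0
    · have h5 := congrArg Polynomial.leadingCoeff h3
      rw [Polynomial.leadingCoeff_pow, Polynomial.leadingCoeff_mul, Polynomial.leadingCoeff_C,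
        Polynomial.leadingCoeff_pow] at h5
      have h6 : B.leadingCoeff ≠ 0 := Polynomial.leadingCoeff_ne_zero.2 hB0
      apply ha
      refine ⟨A.leadingCoeff / B.leadingCoeff, ?_⟩
      field_simp
      rw [h5]
  have hR0 : R ≠ 0 := by
    rintro rfl
    rw [mul_zero] at hR
    exact hne2 hR
  have hdeg : (A ^ 2 - C a * B ^ 2).natDegree ≤ 4 := by
    refine (Polynomial.natDegree_sub_le _ _).trans (max_le ?_ ?_)
    · rw [Polynomial.natDegree_pow]
      omega
    · refine (Polynomial.natDegree_C_mul_le _ _).trans ?_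
      rw [Polynomial.natDegree_pow]
      omega
  rw [hR, Polynomial.natDegree_mul hQ.ne_zero hR0, h4] at hdeg
  have hRd : R.natDegree = 0 := by omega
  rw [Polynomial.natDegree_eq_zero] at hRd
  obtain ⟨κ, hκ⟩ := hRd
  have hκ0 : κ ≠ 0 := by
    rintro rfl
    rw [map_zero] at hκ
    exact hR0 hκ.symm
  have hc : κ = A.coeff 2 ^ 2 := by
    have h5 := congrArg (fun p : K[X] => p.coeff (2 + 2)) hR
    simp only [coeff_sub] at h5
    rw [← hκ, Polynomial.coeff_mul_C, pow_two A, Polynomial.coeff_mul_add_eq_of_natDegree_le hA hA,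
      Polynomial.coeff_C_mul, pow_two B] at h5
    have h6 : (B * B).coeff (2 + 2) = 0 := by
      apply Polynomial.coeff_eq_zero_of_natDegree_lt
      refine (Polynomial.natDegree_mul_le).trans_lt ?_
      omega
    have h7 : Q.coeff (2 + 2) = 1 := by
      have h8 := hQ.coeff_natDegree
      rw [h4] at h8
      exact h8
    rw [h6, h7, mul_zero, sub_zero, one_mul] at h5
    rw [← h5, pow_two]
  have hα : A.coeff 2 ≠ 0 := by
    intro h
    rw [h] at hc
    apply hκ0
    rw [hc]
    ring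
  refine ⟨C (A.coeff 2)⁻¹ * A, C (A.coeff 2)⁻¹ * B, ?_⟩
  have h9 : (C (A.coeff 2)⁻¹ * A) ^ 2 - C a * (C (A.coeff 2)⁻¹ * B) ^ 2 =
      C ((A.coeff 2)⁻¹ ^ 2) * (A ^ 2 - C a * B ^ 2) := by
    rw [C_pow]
    ring
  rw [h9, hR, ← hκ, hc, mul_comm Q, ← mul_assoc, ← C_mul, ← mul_pow, inv_mul_cancel₀ hα, one_pow,
    C_1, one_mul]

end pade

section loc

variable {F : Type} [NontriviallyNormedField F] [IsUltrametricDist F] [ProperSpace F] [CharZero F]

theorem loc_pos (h2 : ‖(2 : F)‖ = 1) {Q p q : F[X]} (hQ : ∀ i, ‖Q.coeff i‖ ≤ 1)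
    (hp : ∀ i, ‖p.coeff i‖ ≤ 1) (hq : ∀ i, ‖q.coeff i‖ ≤ 1)
    (hpq : p * Q + q * derivative Q = 1) {a c t : F} (ha : ‖a‖ = 1) (hc : ‖c‖ = 1)
    (ht : ‖t‖ ≤ 1) (h : ∀ e, eval e Q = 0 → ‖e - t‖ < 1 → IsSquare a) :
    Sol a (c * eval t Q) := by
  have : CompleteSpace F := inferInstance
  by_cases h0 : ‖eval t Q‖ < 1
  · have h1 := Pool.Agent.H23.N6E.deriv_unit hQ hp hq hpq ht h0
    obtain ⟨e, he, hle⟩ := hensel_root hQ ht h0 h1
    exact sol_of_sq _ (h e he (hle.trans_lt h0))
  · have h1 : ‖eval t Q‖ = 1 := le_antisymm (eval_int hQ ht) (not_lt.1 h0)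
    exact (Pool.Agent.H23.QCF.LA.unr F h2).1 a _ ha (by rw [norm_mul, hc, h1, one_mul])

theorem loc_neg (h2 : ‖(2 : F)‖ = 1) {Q p q : F[X]} (hQ : ∀ i, ‖Q.coeff i‖ ≤ 1)
    (hp : ∀ i, ‖p.coeff i‖ ≤ 1) (hq : ∀ i, ‖q.coeff i‖ ≤ 1)
    (hpq : p * Q + q * derivative Q = 1) {a c t e : F} (ha : ‖a‖ = 1) (hc : ‖c‖ = 1)
    (ht : ‖t‖ ≤ 1) (he : eval e Q = 0) (het : ‖e - t‖ < 1)
    (hmx : ∀ x : F, ‖x‖ < 1 → ‖x‖ ≤ ‖e - t‖) (hsq : ¬ IsSquare a) (hne : eval t Q ≠ 0) :
    ¬ Sol a (c * eval t Q) := by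
  have : CompleteSpace F := inferInstance
  have he1 : ‖e‖ ≤ 1 := by
    have h1 : e = (e - t) + t := by ring
    rw [h1]
    exact (IsUltrametricDist.norm_add_le_max _ _).trans (max_le het.le ht)
  have h1 := Pool.Agent.H23.N6E.deriv_unit hQ hp hq hpq he1
    (by rw [he, norm_zero]; exact zero_lt_one)
  have h3 := eval_sub_bound (Q := taylor e Q) (taylor_int hQ he1) het.le
    (h := t - e) (k := 0) (by rw [norm_sub_rev]) (by rw [norm_zero]; exact norm_nonneg _)
  rw [Polynomial.taylor_eval, Polynomial.taylor_eval, Polynomial.taylor_coeff_one,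
    sub_add_cancel, zero_add, he, sub_zero, sub_zero] at h3
  have hte : 0 < ‖t - e‖ := by
    rw [norm_pos_iff]
    intro h
    apply hne
    rw [sub_eq_zero.1 h, he]
  have h4 : ‖eval t Q - eval e (derivative Q) * (t - e)‖ <
      ‖eval e (derivative Q) * (t - e)‖ := by
    refine h3.trans_lt ?_
    rw [norm_mul, h1, one_mul]
    calc ‖e - t‖ * ‖t - e‖ < 1 * ‖t - e‖ := mul_lt_mul_of_pos_right het hte
      _ = _ := one_mul _
  have h5 : ‖eval t Q‖ = ‖e - t‖ := by
    have h6 : eval t Q = (eval t Q - eval e (derivative Q) * (t - e)) +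
        eval e (derivative Q) * (t - e) := by ring
    rw [h6, IsUltrametricDist.norm_add_eq_max_of_norm_ne_norm h4.ne, max_eq_right h4.le,
      norm_mul, h1, one_mul, norm_sub_rev]
  apply Pool.Agent.H23.QCF.LA.tam F h2 a _ ha hsq
  · apply mul_ne_zero _ hne
    intro h
    rw [h, norm_zero] at hc
    exact zero_ne_one hc
  · intro d hd
    rw [norm_mul, hc, one_mul, h5] at hd
    have hpos : 0 < ‖e - t‖ := by rw [norm_sub_rev]; exact hte
    have hd1 : ‖d‖ < 1 := by
      by_contra hcon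
      push Not at hcon
      have : 1 ≤ ‖d‖ ^ 2 := one_le_pow₀ hcon
      linarith
    have hd2 := hmx d hd1
    have hd0 : 0 < ‖d‖ := by
      rcases (norm_nonneg d).eq_or_lt with h | h
      · rw [← h] at hd
        rw [hd] at hpos
        norm_num at hpos
      · exact h
    rw [hd] at hd2
    have : ‖d‖ ^ 2 < ‖d‖ := by
      calc ‖d‖ ^ 2 = ‖d‖ * ‖d‖ := pow_two _
        _ < 1 * ‖d‖ := mul_lt_mul_of_pos_right hd1 hd0
        _ = ‖d‖ := one_mul _
    linarith

end loc

section places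

variable {k K : Type} [Field k] [NumberField k] [Field K] [NumberField K] [Algebra k K]

theorem symAt_inl (a c : k) (Q : k[X]) (w : FPl K) (θ : K) :
    SymAt a c Q K (Sum.inl w) θ ↔ Sol ((ic w) (algebraMap k K a))
      ((ic w) (algebraMap k K c) * eval (ic w θ) (Q.map ((ic w).comp (algebraMap k K)))) := by
  rw [eval_ic, ← map_mul]
  exact Pool.Agent.H23.QCF.hil_eq_one_iff _ _

omit [NumberField k] in
theorem symAt_all {a c : k} {Q : k[X]} {θ : K}
    (h : Sol (algebraMap k K a) (algebraMap k K c * aeval θ Q)) (w : Pl K) :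
    SymAt a c Q K w θ := by
  cases w with
  | inl w => exact (Pool.Agent.H23.QCF.hil_eq_one_iff _ _).2 (sol_map (ic w) h)
  | inr φ => exact (Pool.Agent.H23.QCF.hil_eq_one_iff _ _).2 (sol_map φ h)

end places

theorem pf_F2B (hDEV : T_DEV) (hLS : T_LS) : T_F2B := by
  intro K _ _ a c Q ha hc hQ hirr h4 hloc
  have hadc := Pool.Agent.H23.QCF.LA.adc
  by_cases hSq : SqMod Q (C a)
  · left
    by_cases hasq : IsSquare a
    · exact sol_of_sq _ hasq
    · obtain ⟨A, B, hAB⟩ := norm_form hQ h4 hSq hasq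
      apply Pool.Agent.H23.QCF.All.hasseConic K a c ha hc
      intro v
      rcases hloc v with h | h
      · cases v with
        | inl v =>
          obtain ⟨z, hz, hs⟩ : ∃ z : v.adicCompletion K, eval₂ (ic v) z Q ≠ 0 ∧
            Sol ((ic v) a) ((ic v) c * eval₂ (ic v) z Q) := h
          apply (Pool.Agent.H23.QCF.hil_eq_one_iff _ _).2
          have h1 : eval₂ (ic v) z Q = (eval₂ (ic v) z A) ^ 2 - ic v a * (eval₂ (ic v) z B) ^ 2 := by
            rw [hAB, eval₂_sub, eval₂_mul, eval₂_pow, eval₂_pow, eval₂_C]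
          rw [h1] at hz hs
          exact sol_div_norm hz hs
        | inr φ =>
          obtain ⟨z, hz, hs⟩ : ∃ z : ℝ, eval₂ φ z Q ≠ 0 ∧
            Sol (φ a) (φ c * eval₂ φ z Q) := h
          apply (Pool.Agent.H23.QCF.hil_eq_one_iff _ _).2
          have h1 : eval₂ φ z Q = (eval₂ φ z A) ^ 2 - φ a * (eval₂ φ z B) ^ 2 := by
            rw [hAB, eval₂_sub, eval₂_mul, eval₂_pow, eval₂_pow, eval₂_C]
          rw [h1] at hz hs
          exact sol_div_norm hz hs
      · exact h
  · right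
    classical
    have hsep : Q.Separable := hirr.separable
    have hndvd : ¬ Q ∣ C a := by
      intro h
      have h1 := Polynomial.natDegree_le_of_dvd h (by rw [Ne, C_eq_zero]; exact ha)
      rw [natDegree_C, h4] at h1
      omega
    have hcop : IsCoprime Q (C a) := hirr.coprime_iff_not_dvd.2 hndvd
    have hfin : ({v : FPl K | ¬ GoodAt Q (C a) v} ∪ {v : FPl K | ¬ ‖ic v a⁻¹‖ ≤ 1} ∪
        {v : FPl K | ¬ ‖ic v c‖ ≤ 1} ∪ {v : FPl K | ¬ ‖ic v c⁻¹‖ ≤ 1}).Finite :=
      (((bad_fin hsep hcop).union (int_fin _)).union (int_fin _)).union (int_fin _)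
    set Sf : Finset (FPl K) := hfin.toFinset with hSf
    set S : Finset (Pl K) := Sf.image Sum.inl ∪ (Finset.univ : Finset (K →+* ℝ)).image Sum.inr
      with hS
    have hgood : ∀ v : FPl K, Sum.inl v ∉ S → GoodAt Q (C a) v ∧ ‖ic v a‖ = 1 ∧ ‖ic v c‖ = 1 := by
      intro v hv
      have h1 : v ∉ ({v : FPl K | ¬ GoodAt Q (C a) v} ∪ {v : FPl K | ¬ ‖ic v a⁻¹‖ ≤ 1} ∪
        {v : FPl K | ¬ ‖ic v c‖ ≤ 1} ∪ {v : FPl K | ¬ ‖ic v c⁻¹‖ ≤ 1}) := by
        intro hcon
        apply hv
        rw [hS]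
        apply Finset.mem_union_left
        apply Finset.mem_image_of_mem
        rw [hSf, Set.Finite.mem_toFinset]
        exact hcon
      simp only [Set.mem_union, Set.mem_ofPred_eq, not_or, not_not] at h1
      obtain ⟨⟨⟨hg, h2⟩, h3⟩, h5⟩ := h1
      have key : ∀ x : K, x ≠ 0 → ‖ic v x‖ ≤ 1 → ‖ic v x⁻¹‖ ≤ 1 → ‖ic v x‖ = 1 := by
        intro x hx hx1 hx2
        apply le_antisymm hx1
        rw [map_inv₀, norm_inv] at hx2
        exact (inv_le_one₀ (norm_pos_iff.2 ((_root_.map_ne_zero (ic v)).2 hx))).1 hx2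
      refine ⟨hg, key a ha ?_ h2, key c hc h3 h5⟩
      have h6 := hg.intD 0
      rw [coeff_C_zero] at h6
      exact h6
    have hAll : ∀ v : Pl K, ∃ (G : K[X]) (ε : ℝ), v ∈ S → 0 < ε ∧ G.Monic ∧ G.natDegree = 5 ∧
        IsCoprime G Q ∧ G.Separable ∧ NearOK (SymAt a c Q) v 5 G ε := by
      intro v
      obtain ⟨G, ε, h1⟩ := hLS K Q a c ha hc hQ hsep (by rw [h4]; decide) v (hloc v) 5 (by decide)
      exact ⟨G, ε, fun _ => h1⟩
    choose G ε hG using hAll
    have hdat : ∀ (K' : Type) [Field K'] [NumberField K'] [Algebra K K'] (w : FPl K'),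
        Sum.inl (w.under (𝓞 K)) ∉ S → ‖(2 : w.adicCompletion K')‖ = 1 ∧
        ‖ic w (algebraMap K K' a)‖ = 1 ∧ ‖ic w (algebraMap K K' c)‖ = 1 ∧
        (∀ i, ‖(Q.map ((ic w).comp (algebraMap K K'))).coeff i‖ ≤ 1) ∧
        ∃ p q : (w.adicCompletion K')[X], (∀ i, ‖p.coeff i‖ ≤ 1) ∧ (∀ i, ‖q.coeff i‖ ≤ 1) ∧
          p * Q.map ((ic w).comp (algebraMap K K')) +
            q * derivative (Q.map ((ic w).comp (algebraMap K K'))) = 1 := by
      intro K' _ _ _ w hw
      obtain ⟨hg, hga, hgc⟩ := hgood _ hw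
      refine ⟨?_, norm_up_one w a hga, norm_up_one w c hgc, poly_up hg.intP, ?_⟩
      · have h1 := norm_up_one w 2 hg.two
        rw [map_ofNat, map_ofNat] at h1
        exact h1
      · obtain ⟨p, q, hp, hq, hpq⟩ := hg.sep
        refine ⟨p.map ((ic w).comp (algebraMap K K')), q.map ((ic w).comp (algebraMap K K')),
          poly_up hp, poly_up hq, ?_⟩
        rw [Polynomial.derivative_map, ← Polynomial.map_mul, ← Polynomial.map_mul,
          ← Polynomial.map_add, hpq, Polynomial.map_one]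
    obtain ⟨K', iF, iN, iA, θ, G', hodd, -, hne, hR, -, -, -, -⟩ :=
      hDEV K Q (C a) hQ hirr hndvd hSq (SymAt a c Q) S 5 G ε (fun v hv => (hgood v hv).1)
        (fun φ => by
          rw [hS]
          apply Finset.mem_union_right
          exact Finset.mem_image_of_mem _ (Finset.mem_univ φ))
        (by decide) (by omega) (fun v hv => hG v hv)
        (by
          intro K' _ _ _ θ w₀ hne hw
          have h1 := Pool.Agent.H23.QCF.All.conic_off_one K' (algebraMap K K' a)
            (algebraMap K K' c * aeval θ Q) (Sum.inl w₀) ((_root_.map_ne_zero _).2 ha)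
            (mul_ne_zero ((_root_.map_ne_zero _).2 hc) hne) hw
          exact fun w => symAt_all h1 w)
        (by
          intro K' _ _ _ w θ hw hθ hne hroot
          obtain ⟨h2, hna, hnc, hQi, p, q, hp, hq, hpq⟩ := hdat K' w hw
          obtain ⟨hpr, hch, x, hx⟩ := hadc K' w
          letI nn : NontriviallyNormedField (w.adicCompletion K') :=
            { (inferInstance : NormedField (w.adicCompletion K')) with non_trivial := ⟨x, hx⟩ }
          rw [symAt_inl]
          refine loc_pos (F := w.adicCompletion K') h2 hQi hp hq hpq hna hnc hθ ?_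
          intro e he het
          rw [eval_map] at he
          have h5 := hroot e he het
          rw [eval₂_C] at h5
          exact h5)
        (by
          intro K' _ _ _ w θ hw hθ hne hroot
          obtain ⟨h2, hna, hnc, hQi, p, q, hp, hq, hpq⟩ := hdat K' w hw
          obtain ⟨hpr, hch, x, hx⟩ := hadc K' w
          letI nn : NontriviallyNormedField (w.adicCompletion K') :=
            { (inferInstance : NormedField (w.adicCompletion K')) with non_trivial := ⟨x, hx⟩ }
          rw [symAt_inl]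
          obtain ⟨e, he, het, hmx, hsq⟩ := hroot
          rw [eval₂_C] at hsq
          refine loc_neg (F := w.adicCompletion K') h2 hQi hp hq hpq hna hnc hθ (e := e)
            (by rw [eval_map]; exact he) het hmx hsq ?_
          rw [eval_ic]
          exact (_root_.map_ne_zero (ic w)).2 hne)
        (by
          intro K' _ _ _ w θ hne hsplit hroot
          rw [symAt_inl]
          apply sol_of_sq
          have hd : (Q.map ((ic w).comp (algebraMap K K'))).degree ≠ 0 := by
            rw [Polynomial.degree_map, Polynomial.degree_eq_natDegree hQ.ne_zero, h4]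
            decide
          obtain ⟨e, he⟩ := hsplit.exists_eval_eq_zero hd
          rw [eval_map] at he
          have h5 := hroot e he
          rw [eval₂_C] at h5
          exact h5)
    refine ⟨K', iF, iN, iA, hodd, θ, hne, ?_⟩
    apply Pool.Agent.H23.QCF.All.hasseConic K' _ _ ((_root_.map_ne_zero _).2 ha)
      (mul_ne_zero ((_root_.map_ne_zero _).2 hc) hne)
    exact hR

end Pool.Agent.H23.N6
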