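import Pool.Agent.H23.QCF.All
import Pool.Agent.H34.N6.Main

/-!
# Inert places and conics, in the form of the main file
-/

set_option autoImplicit false

open NumberField IsDedekindDomain Pool.Agent.H32.QC

namespace Pool.Agent.H23.N6

theorem pf_INERT : Pool.Agent.H34.N6.T_INERT := fun K _ _ a ha =>
  Pool.Agent.H23.QCF.All.inert K a ha

theorem pf_CON : Pool.Agent.H34.N6.T_CON := fun K _ _ a b w₀ ha hb h =>
  Pool.Agent.H23.QCF.All.conic_off_one K a b (Sum.inl w₀) ha hb h

end Pool.Agent.H23.N6
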